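import Pool.Agent.helper31.GPR.Spec

/-!
# Project GPR (MP_7a3aac_co): row DIC
-/

set_option autoImplicit false

namespace Pool.Agent.GPR

open Pool.Agent.helper25.QST

theorem DIC_card {V : Type} [AddCommGroup V] [Module (ZMod 2) V] [Finite V] (E : Submodule (ZMod 2) V) :
    (E : Set V).ncard = 2 ^ Module.finrank (ZMod 2) E := by
  have h := Module.natCard_eq_pow_finrank (K := ZMod 2) (V := E)
  rw [Nat.card_zmod] at h
  rw [← h]
  exact (Nat.card_coe_set_eq (E : Set V)).symm

theorem DIC : DIC_stmt := by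
  intro V _ _ _ n L S N X hn hX hL hS hN
  have hfin : ∀ T : Set V, T.Finite := fun T => Set.toFinite T
  let E : ZMod 2 → Submodule (ZMod 2) V := fun e => X.comap (N + e • LinearMap.id)
  have hE : ∀ e v, v ∈ E e ↔ N v + e • v ∈ X := fun e v => Iff.rfl
  have h2 : ∀ c : ZMod 2, c + c = 0 := by decide
  -- the cover
  have hcov : ∀ w ∈ S, w ∈ E 0 ∨ w ∈ E 1 := by
    intro w hw
    obtain ⟨u, hu, z, hz, huz⟩ := Submodule.mem_sup.1 (hN w hw)
    obtain ⟨c, rfl⟩ := Submodule.mem_span_singleton.1 hz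
    have h3 : w ∈ E c := by
      rw [hE, ← huz, add_assoc, ← add_smul, h2, zero_smul, add_zero]
      exact hu
    have h4 : ∀ c : ZMod 2, c = 0 ∨ c = 1 := by decide
    rcases h4 c with rfl | rfl
    · exact Or.inl h3
    · exact Or.inr h3
  -- the intersection
  have hinf : E 0 ⊓ E 1 ≤ X := by
    intro v hv
    have h3 := (hE 0 v).1 hv.1
    have h4 := (hE 1 v).1 hv.2
    rw [zero_smul, add_zero] at h3
    rw [one_smul] at h4
    have h5 := X.sub_mem h4 h3
    rwa [add_sub_cancel_left] at h5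
  have hdim : Module.finrank (ZMod 2) (E 0) + Module.finrank (ZMod 2) (E 1) ≤ n + 3 := by
    rw [← Submodule.finrank_sup_add_finrank_inf_eq]
    have h3 : Module.finrank (ZMod 2) (E 0 ⊔ E 1 : Submodule (ZMod 2) V) ≤ n := by
      rw [← hn]
      exact Submodule.finrank_le _
    have h4 : Module.finrank (ZMod 2) (E 0 ⊓ E 1 : Submodule (ZMod 2) V) ≤ 3 :=
      (Submodule.finrank_mono hinf).trans hX
    omega
  -- one of the two is large
  have hbig : n ≤ Module.finrank (ZMod 2) (E 0) + (L + 1) ∨ n ≤ Module.finrank (ZMod 2) (E 1) + (L + 1) := by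
    by_contra hcon
    push Not at hcon
    obtain ⟨h3, h4⟩ := hcon
    have h5 : S ⊆ (E 0 : Set V) ∪ (E 1 : Set V) := fun w hw => hcov w hw
    have h6 := (Set.ncard_le_ncard h5 (hfin _)).trans (Set.ncard_union_le _ _)
    rw [DIC_card, DIC_card] at h6
    have h7 : 2 ^ Module.finrank (ZMod 2) (E 0) ≤ 2 ^ (n - L - 2) := Nat.pow_le_pow_right (by norm_num) (by omega)
    have h8 : 2 ^ Module.finrank (ZMod 2) (E 1) ≤ 2 ^ (n - L - 2) := Nat.pow_le_pow_right (by norm_num) (by omega)
    have h9 : 2 ^ (n - L) = 4 * 2 ^ (n - L - 2) := by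
      have : n - L = (n - L - 2) + 2 := by omega
      rw [this, pow_add]
      simp only [Nat.add_sub_cancel]
      ring
    have h10 : 1 ≤ 2 ^ (n - L - 2) := Nat.one_le_two_pow
    omega
  have hfinal : ∀ e e' : ZMod 2, (∀ w ∈ S, w ∈ E e ∨ w ∈ E e') →
      Module.finrank (ZMod 2) (E e) + Module.finrank (ZMod 2) (E e') ≤ n + 3 →
      n ≤ Module.finrank (ZMod 2) (E e) + (L + 1) → (S \ {v | N v + e • v ∈ X}).ncard ≤ 2 ^ (L + 4) := by
    intro e e' h3 h4 h5
    have h6 : S \ {v | N v + e • v ∈ X} ⊆ (E e' : Set V) := by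
      intro w hw
      rcases h3 w hw.1 with h | h
      · exact absurd ((hE e w).1 h) hw.2
      · exact h
    refine (Set.ncard_le_ncard h6 (hfin _)).trans ?_
    rw [DIC_card]
    exact Nat.pow_le_pow_right (by norm_num) (by omega)
  rcases hbig with h | h
  · exact ⟨0, hfinal 0 1 hcov hdim h⟩
  · exact ⟨1, hfinal 1 0 (fun w hw => (hcov w hw).symm) (by omega) h⟩

end Pool.Agent.GPR
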